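import Pool.Agent.V7H82.PR.Mt
import Pool.Agent.Y379.ZI.BadRed

/-!
# Explicit criteria at one prime `ℓ`
-/

set_option autoImplicit false
set_option linter.unusedSectionVars false
set_option linter.style.haveILetI false

open Matrix Polynomial Filter Topology NumberField IsDedekindDomain
open Pool.Agent.Y142.ZO Pool.Agent.Y142.ZI
open Pool.Agent.Y142.ZS (NiceP S_BADIRR)
open Pool.Agent.W544.PG (HS BD)
open Pool.Agent.R932 (one1 qrep RepT qdet qsymm continuous_qm)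
open Pool.Agent.R932.EV (SS SC strong_of_ss alg_top full_of_genO full_of_good)

namespace Pool.Agent.V7H82.PR

noncomputable section

/-- Two coprime polynomials have no common kernel. -/
theorem ker_coprime {F : Type} [Field F] {n : ℕ} {g : Matrix (Fin n) (Fin n) F} {A B : F[X]}
    (h : IsCoprime A B) {v : Fin n → F} (hA : aeval g A *ᵥ v = 0) (hB : aeval g B *ᵥ v = 0) :
    v = 0 := by
  obtain ⟨C, D, hCD⟩ := h
  have h1 := congrArg (fun R : F[X] => aeval g R *ᵥ v) hCD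
  simp only [map_add, map_mul, map_one, add_mulVec, one_mulVec] at h1
  rw [← mulVec_mulVec, ← mulVec_mulVec, hA, hB, mulVec_zero, mulVec_zero, add_zero] at h1
  exact h1.symm

section
variable {ℓ : ℕ} [Fact ℓ.Prime] {n : ℕ} {Γ : Type}
  [Group Γ] [TopologicalSpace Γ] [IsTopologicalGroup Γ] [CompactSpace Γ]

/-- An element with a simple eigenvalue in `ℚ_ℓ` makes the commutants scalar. -/
theorem sc_of_root (ρ : Γ →* Matrix (Fin n) (Fin n) ℚ_[ℓ]) (hirr : StronglyIrreducible ℓ ρ)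
    (τ : Γ) (hsep : (ρ τ).charpoly.Separable)
    (hpow : ∀ k : ℕ, 0 < k → ∀ x y : AlgebraicClosure ℚ_[ℓ], aeval x (ρ τ).charpoly = 0 →
      aeval y (ρ τ).charpoly = 0 → x ^ k = y ^ k → x = y)
    (a : ℚ_[ℓ]) (ha : (ρ τ).charpoly.IsRoot a) : SC ρ := by
  intro A U hU hA
  have hfin := finiteIndex_of_open hU
  obtain ⟨k, hk, -, hkU⟩ := Subgroup.exists_pow_mem_of_index_ne_zero hfin.index_ne_zero τ
  obtain ⟨g, hg⟩ : ∃ g, g = ρ τ := ⟨_, rfl⟩
  rw [← hg] at hsep hpow ha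
  have hAk : A * g ^ k = g ^ k * A := by
    have h1 := hA _ hkU
    rwa [map_pow, ← hg] at h1
  obtain ⟨R, hR⟩ := Polynomial.dvd_iff_isRoot.2 ha
  have hne : g.charpoly ≠ 0 := (Matrix.charpoly_monic g).ne_zero
  -- `R a ≠ 0`
  have hRa : R.eval a ≠ 0 := by
    intro h0
    obtain ⟨R', hR'⟩ := Polynomial.dvd_iff_isRoot.2 h0
    have h1 := hsep
    rw [hR, hR', ← mul_assoc] at h1
    have h2 : IsUnit (X - C a : ℚ_[ℓ][X]) := by
      have h3 := h1.of_mul_left.squarefree (X - C a) dvd_rfl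
      exact h3
    exact Polynomial.not_isUnit_X_sub_C a h2
  have hcop : IsCoprime R (X ^ k - C (a ^ k)) := by
    rw [Polynomial.isCoprime_iff_aeval_ne_zero_of_isAlgClosed ℚ_[ℓ] (AlgebraicClosure ℚ_[ℓ])]
    intro x
    by_contra hcon
    push Not at hcon
    have h1 : aeval x g.charpoly = 0 := by
      rw [hR, map_mul, hcon.1, mul_zero]
    have h2 : aeval (algebraMap ℚ_[ℓ] (AlgebraicClosure ℚ_[ℓ]) a) g.charpoly = 0 := by
      rw [aeval_algebraMap_apply, coe_aeval_eq_eval, ha.eq_zero, map_zero]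
    have h3 : x ^ k = (algebraMap ℚ_[ℓ] (AlgebraicClosure ℚ_[ℓ]) a) ^ k := by
      have h4 := hcon.2
      rw [map_sub, map_pow, aeval_X, aeval_C, map_pow, sub_eq_zero] at h4
      exact h4
    have h4 := hpow k hk x _ h1 h2 h3
    have h5 := hcon.1
    rw [h4, aeval_algebraMap_apply, coe_aeval_eq_eval, _root_.map_eq_zero] at h5
    exact hRa h5
  -- the eigenspace
  have hker : ∀ v : Fin n → ℚ_[ℓ], g ^ k *ᵥ v = a ^ k • v → g *ᵥ v = a • v := by
    intro v hv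
    have h1 : aeval g (X - C a : ℚ_[ℓ][X]) *ᵥ v = 0 := by
      refine ker_coprime hcop (g := g) ?_ ?_
      · rw [mulVec_mulVec, ← map_mul, mul_comm R, ← hR, Matrix.aeval_self_charpoly, zero_mulVec]
      · rw [mulVec_mulVec, ← map_mul, mul_comm, map_mul, ← mulVec_mulVec]
        have h2 : aeval g (X ^ k - C (a ^ k) : ℚ_[ℓ][X]) *ᵥ v = 0 := by
          rw [map_sub, map_pow, aeval_X, aeval_C, sub_mulVec, hv, Algebra.algebraMap_eq_smul_one,
            smul_mulVec, one_mulVec, sub_self]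
        rw [h2, mulVec_zero]
    rw [map_sub, aeval_X, aeval_C, sub_mulVec, Algebra.algebraMap_eq_smul_one,
            smul_mulVec, one_mulVec, sub_eq_zero] at h1
    exact h1
  -- an eigenvector
  have hlin : (toLin' g).charpoly = g.charpoly := Matrix.charpoly_toLin' g
  have hev : Module.End.HasEigenvalue (toLin' g) a := by
    rw [Module.End.hasEigenvalue_iff_isRoot_charpoly, hlin]
    exact ha
  obtain ⟨e, he⟩ := hev.exists_hasEigenvector
  have hge : g *ᵥ e = a • e := by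
    have h1 := he.apply_eq_smul
    rwa [toLin'_apply] at h1
  have hdim : Module.finrank ℚ_[ℓ] (Module.End.eigenspace (toLin' g) a) ≤ 1 := by
    refine (LinearMap.finrank_eigenspace_le (toLin' g) a).trans ?_
    rw [hlin]
    exact Polynomial.rootMultiplicity_le_one_of_separable hsep a
  have hAe : g ^ k *ᵥ (A *ᵥ e) = a ^ k • (A *ᵥ e) := by
    have h1 : g ^ k *ᵥ e = a ^ k • e := by
      clear hAk hcop hker hkU hk
      induction k with
      | zero => rw [pow_zero, pow_zero, one_mulVec, one_smul]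
      | succ k ih => rw [pow_succ, ← mulVec_mulVec, hge, mulVec_smul, ih, smul_smul, pow_succ,
          mul_comm]
    rw [mulVec_mulVec, ← hAk, ← mulVec_mulVec, h1, mulVec_smul]
  have h1 : A *ᵥ e ∈ Module.End.eigenspace (toLin' g) a := by
    rw [Module.End.mem_eigenspace_iff, toLin'_apply]
    exact hker _ hAe
  obtain ⟨c, hc⟩ : ∃ c : ℚ_[ℓ], c • e = A *ᵥ e := by
    obtain ⟨w, hw⟩ := finrank_le_one_iff.1 hdim
    obtain ⟨c1, hc1⟩ := hw ⟨e, he.1⟩
    obtain ⟨c2, hc2⟩ := hw ⟨A *ᵥ e, h1⟩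
    have h3 : c1 • (w : Fin n → ℚ_[ℓ]) = e := congrArg Subtype.val hc1
    have h4 : c2 • (w : Fin n → ℚ_[ℓ]) = A *ᵥ e := congrArg Subtype.val hc2
    have h5 : c1 ≠ 0 := by
      rintro rfl
      rw [zero_smul] at h3
      exact he.2 h3.symm
    refine ⟨c2 * c1⁻¹, ?_⟩
    rw [← h4, ← h3, smul_smul, inv_mul_cancel_right₀ h5]
  let W : Submodule ℚ_[ℓ] (Fin n → ℚ_[ℓ]) := Module.End.eigenspace (toLin' A) c
  have hW : W = ⊥ ∨ W = ⊤ := by
    refine hirr U W hU fun σ hσ w hw => ?_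
    rw [Module.End.mem_eigenspace_iff, toLin'_apply] at hw ⊢
    rw [mulVec_mulVec, hA σ hσ, ← mulVec_mulVec, hw, mulVec_smul]
  have heW : e ∈ W := by
    rw [Module.End.mem_eigenspace_iff, toLin'_apply]
    exact hc.symm
  rcases hW with hW | hW
  · rw [hW, Submodule.mem_bot] at heW
    exact absurd heW he.2
  · refine ⟨c, ?_⟩
    apply Matrix.toLin'.injective
    apply LinearMap.ext
    intro x
    have h2 : x ∈ W := by
      rw [hW]
      exact Submodule.mem_top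
    have h3 := Module.End.mem_eigenspace_iff.1 h2
    rw [h3, toLin'_apply, smul_mulVec, one_mulVec]

end

section place

variable {K : Type} [Field K] [NumberField K] {n : ℕ} {S : Set (HeightOneSpectrum (𝓞 K))}
  {P : HeightOneSpectrum (𝓞 K) → ℚ[X]} {Γ : Type} [Group Γ] [TopologicalSpace Γ]
  [IsTopologicalGroup Γ] [CompactSpace Γ] {s : GK K →* Γ} {T : HS n} {ℓ : ℕ} [Fact ℓ.Prime]
  {β : Γ →* Matrix (Fin n) (Fin n) ℤ_[ℓ]}

/-- Distinct powers over the closure of `ℚ_ℓ`. -/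
theorem pow_closure {F : ℚ[X]} (hF : F ≠ 0)
    (hpow : ∀ (k : ℕ) (x y : QB), 0 < k → aeval x F = 0 → aeval y F = 0 → x ^ k = y ^ k → x = y) :
    ∀ k : ℕ, 0 < k → ∀ x y : AlgebraicClosure ℚ_[ℓ], aeval x (F.map (algebraMap ℚ ℚ_[ℓ])) = 0 →
      aeval y (F.map (algebraMap ℚ ℚ_[ℓ])) = 0 → x ^ k = y ^ k → x = y := by
  intro k hk x y hx hy hxy
  obtain ⟨ι⟩ := emb ℓ
  obtain ⟨r, hr, rfl⟩ := lift_root ℓ ι hF hx
  obtain ⟨t, ht, rfl⟩ := lift_root ℓ ι hF hy
  rw [← map_pow, ← map_pow] at hxy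
  rw [hpow k r t hk hr ht (ι.injective hxy)]

/-- The degree of the polynomial of a place. -/
theorem natDegree_place (h : RepT s T S P ℓ β) {v : HeightOneSpectrum (𝓞 K)} (hv : v ∉ S)
    (hvℓ : (ℓ : 𝓞 K) ∉ v.asIdeal) : (P v).natDegree = n := by
  obtain ⟨σ, hσ⟩ := Pool.Agent.W401.Frob.exists_frob v
  have hchar : (qrep β (s σ⁻¹)).charpoly = (P v).map (algebraMap ℚ ℚ_[ℓ]) :=
    h.frob v hv hvℓ σ hσ
  have h1 := Matrix.charpoly_natDegree_eq_dim (qrep β (s σ⁻¹))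
  rw [hchar, natDegree_map, Fintype.card_fin] at h1
  exact h1

/-- **Even rank.** -/
theorem full_even_expl (h : RepT s T S P ℓ β) {v : HeightOneSpectrum (𝓞 K)} (hv : v ∉ S)
    (hvℓ : (ℓ : 𝓞 K) ∉ v.asIdeal) {b : ℕ} (hQ : IsHom (P v) b) (hn : 0 < n)
    (hirr : Irreducible ((P v).map (algebraMap ℚ ℚ_[ℓ])))
    {u : HeightOneSpectrum (𝓞 K)} (hu : u ∉ S) (huℓ : (ℓ : 𝓞 K) ∉ u.asIdeal)
    (hsep : (P u).Separable)
    (hpow : ∀ (k : ℕ) (x y : QB), 0 < k → aeval x (P u) = 0 → aeval y (P u) = 0 →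
      x ^ k = y ^ k → x = y)
    {a : ℚ_[ℓ]} (ha : aeval a (P u) = 0) :
    FullLie ℓ (qrep β) (T.Q.map (algebraMap ℚ ℚ_[ℓ])) := by
  have hcont : Continuous (qrep β) := continuous_qm.comp h.cont
  have hbad : S_BADIRR := Pool.Agent.R932.OP.badirr Pool.Agent.Y614.ZD.t
  obtain ⟨σ, hσ⟩ := Pool.Agent.W401.Frob.exists_frob v
  have hchar : (qrep β (s σ⁻¹)).charpoly = (P v).map (algebraMap ℚ ℚ_[ℓ]) := h.frob v hv hvℓ σ hσ
  have hstr : StronglyIrreducible ℓ (qrep β) := by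
    refine hbad ℓ n Γ (qrep β) hcont (s σ⁻¹) (by rw [hchar]; exact hirr) ?_
    rw [hchar]
    exact pow_closure hQ.sep.ne_zero hQ.pow
  obtain ⟨τ, hτ⟩ := Pool.Agent.W401.Frob.exists_frob u
  have hchar' : (qrep β (s τ⁻¹)).charpoly = (P u).map (algebraMap ℚ ℚ_[ℓ]) := h.frob u hu huℓ τ hτ
  refine full_even h hv hvℓ hQ hn hstr (sc_of_root (qrep β) hstr (s τ⁻¹) ?_ ?_ a ?_)
  · rw [hchar']
    exact hsep.map
  · rw [hchar']
    exact pow_closure hsep.ne_zero hpow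
  · rw [hchar', IsRoot.def, eval_map_algebraMap]
    exact ha

/-- **Odd rank.** -/
theorem full_odd_expl (h : RepT s T S P ℓ β) (hs : Continuous s)
    {v : HeightOneSpectrum (𝓞 K)} (hv : v ∉ S)
    (hvℓ : (ℓ : 𝓞 K) ∉ v.asIdeal) {b : ℕ} {Q : ℚ[X]} (hPv : P v = (X - 1) * Q) (hQ : IsHom Q b)
    (hodd : Odd n) (hirr : Irreducible (Q.map (algebraMap ℚ ℚ_[ℓ])))
    {u : HeightOneSpectrum (𝓞 K)} {R : ℚ[X]} (hu : u ∉ S) (huℓ : (ℓ : 𝓞 K) ∉ u.asIdeal)
    (hPu : P u = (X - 1) * R) (hR : ∀ (k : ℕ) (x : QB), 0 < k → aeval x R = 0 → x ^ k ≠ 1)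
    (hsq : ¬ IsSquare ((Q.eval 1 * Q.eval (-1) * (R.eval 1 * R.eval (-1)) : ℚ) : ℚ_[ℓ])) :
    FullLie ℓ (qrep β) (T.Q.map (algebraMap ℚ ℚ_[ℓ])) := by
  have hOrth := h.orthogonal hs
  obtain ⟨hgv, -⟩ := goodPlace h hv hvℓ hPv hQ
  obtain ⟨ψ⟩ := nonempty_LC
  have hR0 : R ≠ 0 := by
    rintro rfl
    have h1 := (monic_place h hu huℓ).ne_zero
    rw [hPu, mul_zero] at h1
    exact h1 rfl
  have hgu : GoodPlace S P u R := ⟨hu, hPu, fun k hk => coprime_of_roots (fun k hk x hx h1 => by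
    obtain ⟨r, hr, rfl⟩ := lift_c ψ hR0 hx
    rw [← map_pow, ← map_one ψ] at h1
    exact hR k r hk hr (ψ.injective h1)) k hk⟩
  have htate : ¬ TateSubquotient ℓ ((qrep β).comp s) := fun ht => hsq
    (tate_square (Pool.Agent.Y458.ZO.bad Pool.Agent.Y337.ZO.iso_t Pool.Agent.Y337.ZO.line_t) hodd
      hgv hgu ℓ hvℓ huℓ _ _ hOrth ht)
  have hcard : Nat.card (Rt Q) = 2 * b := (card_rt hQ.sep).trans hQ.deg
  have hself := self_one hQ.hom hcard
  have hmon : Q.Monic := by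
    have h1 := monic_place h hv hvℓ
    rw [hPv] at h1
    have h2 : (X - 1 : ℚ[X]).Monic := by
      have h3 := monic_X_sub_C (1 : ℚ)
      rwa [map_one] at h3
    exact h2.of_mul_monic_left h1
  have hinv : ∀ x : QB, aeval x Q = 0 → x ≠ 0 ∧ aeval x⁻¹ Q = 0 := fun x hx =>
    root_inv_odd h hv hvℓ hPv hQ hx
  have hone : ∀ (k : ℕ) (x : QB), 0 < k → aeval x Q = 0 → x ^ k ≠ 1 := by
    intro k x hk hx h1
    obtain ⟨h3, h4⟩ := hinv x hx
    have h5 := hQ.pow k x x⁻¹ hk hx h4 (by rw [inv_pow, h1, inv_one])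
    apply hself x hx
    rw [Rat.cast_one]
    conv_lhs => rw [h5]
    nth_rewrite 1 [← h5]
    exact mul_inv_cancel₀ h3
  have hnice : NicePlace S P v Q := by
    refine ⟨hv, hPv, hmon, hQ.sep, fun h0 => ?_, ?_⟩
    · refine hone 1 1 one_pos ?_ (one_pow 1)
      have h1 : aeval (algebraMap ℚ QB 1) Q = 0 := by
        rw [aeval_algebraMap_apply, coe_aeval_eq_eval, h0, map_zero]
      rwa [map_one] at h1
    · intro j x y hj hx hy hxy
      rw [map_mul, map_sub, aeval_X, map_one] at hx hy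
      rcases mul_eq_zero.1 hx with hx | hx
      · rcases mul_eq_zero.1 hy with hy | hy
        · rw [sub_eq_zero.1 hx, sub_eq_zero.1 hy]
        · rw [sub_eq_zero.1 hx, one_pow] at hxy
          exact absurd hxy.symm (hone j y hj hy)
      · rcases mul_eq_zero.1 hy with hy | hy
        · rw [sub_eq_zero.1 hy, one_pow] at hxy
          exact absurd hxy (hone j x hj hx)
        · exact hQ.pow j x y hj hx hy hxy
  have hstr : StronglyIrreducible ℓ ((qrep β).comp s) := Pool.Agent.Y142.ZI.strong_of_irr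
    Pool.Agent.Y379.ZI.t hnice ℓ hvℓ _ _ hOrth hirr htate
  refine full_odd h hv hvℓ hPv hQ fun U W hU hW => ?_
  exact hstr (U.comap s) W (hU.preimage hs) fun σ hσ w hw => hW (s σ) hσ w hw

end place

end

end Pool.Agent.V7H82.PR
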