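import Mathlib
import Pool.Agent.V7H82.LR.Main
import Pool.Agent.V7H82.LR.Num

/-!
# Short relations for doubly homogeneous actions

A group acts transitively on a finite set with an involution without fixed points, and any two pairs can
be moved to any two pairs.
-/

set_option linter.unusedSectionVars false
set_option linter.unusedVariables false

namespace Pool.Agent.V7H82.PR

open Pool.Agent.TH127.SC Pool.Agent.V7H82.TT Pool.Agent.V7H82.HT MulAction
  Pool.Agent.V7H82.TG Pool.Agent.V7H82.LR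

variable {Γ Y : Type*} [Group Γ] [MulAction Γ Y] {cb : Y → Y}

/-- Any two pairs can be moved to any two pairs. -/
def PairHom (Γ : Type*) {Y : Type*} [Group Γ] [MulAction Γ Y] (cb : Y → Y) : Prop :=
  ∀ x y x' y' : Y, Kern.NP cb x y → Kern.NP cb x' y' → ∃ g : Γ,
    ((g • x = x' ∨ g • x = cb x') ∧ (g • y = y' ∨ g • y = cb y')) ∨
    ((g • x = y' ∨ g • x = cb y') ∧ (g • y = x' ∨ g • y = cb x'))

section

variable (hcb : ∀ y, cb (cb y) = y) (hne : ∀ y, cb y ≠ y)
  (hG : ∀ (g : Γ) (y : Y), g • cb y = cb (g • y))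

include hcb hG in
theorem flip_cb_right {x y : Y} (h : Flip Γ cb x y) : Flip Γ cb x (cb y) := by
  obtain ⟨g, ⟨h1, h2⟩ | ⟨h1, h2⟩ | ⟨h1, h2⟩⟩ := h
  · exact ⟨g, Or.inl ⟨h1, by rw [hG, h2]⟩⟩
  · exact ⟨g, Or.inr (Or.inl ⟨h1, by rw [hG, h2]⟩)⟩
  · refine ⟨g⁻¹, Or.inr (Or.inr ⟨?_, ?_⟩)⟩
    · rw [inv_smul_eq_iff, hG, h2, hcb]
    · rw [inv_smul_eq_iff, hG, h1]

include hcb hG in
theorem flip_cb_left {x y : Y} (h : Flip Γ cb x y) : Flip Γ cb (cb x) y := by
  obtain ⟨g, ⟨h1, h2⟩ | ⟨h1, h2⟩ | ⟨h1, h2⟩⟩ := h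
  · exact ⟨g, Or.inl ⟨by rw [hG, h1], h2⟩⟩
  · exact ⟨g, Or.inr (Or.inl ⟨by rw [hG, h1], h2⟩)⟩
  · refine ⟨g⁻¹, Or.inr (Or.inr ⟨?_, ?_⟩)⟩
    · rw [inv_smul_eq_iff, h2]
    · rw [inv_smul_eq_iff, hcb, h1]

include hcb hG in
theorem flip_symm' {x y : Y} (h : Flip Γ cb x y) : Flip Γ cb y x := by
  obtain ⟨g, ⟨h1, h2⟩ | ⟨h1, h2⟩ | ⟨h1, h2⟩⟩ := h
  · exact ⟨g, Or.inr (Or.inl ⟨h2, h1⟩)⟩
  · exact ⟨g, Or.inl ⟨h2, h1⟩⟩
  · have h3 : Flip Γ cb y (cb x) := ⟨g, Or.inr (Or.inr ⟨h2, by rw [hG, h1]⟩)⟩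
    have h4 := flip_cb_right hcb hG h3
    rwa [hcb] at h4

include hcb hG in
/-- Flips are moved to flips. -/
theorem flip_smul {x y : Y} (g : Γ) (h : Flip Γ cb (g • x) (g • y)) : Flip Γ cb x y := by
  obtain ⟨σ, h⟩ := h
  refine ⟨g⁻¹ * σ * g, ?_⟩
  simp only [mul_smul, inv_smul_eq_iff, hG]
  exact h

include hcb hG in
theorem flip_of {x y u v : Y} (h : Flip Γ cb u v) (hx : x = u ∨ x = cb u) (hy : y = v ∨ y = cb v) :
    Flip Γ cb x y := by
  rcases hx with rfl | rfl <;> rcases hy with rfl | rfl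
  · exact h
  · exact flip_cb_right hcb hG h
  · exact flip_cb_left hcb hG h
  · exact flip_cb_left hcb hG (flip_cb_right hcb hG h)

include hcb hG in
theorem flip_hom (hpair : PairHom Γ cb) {x y x' y' : Y} (h : Kern.NP cb x y)
    (h' : Kern.NP cb x' y') (hf : Flip Γ cb x' y') : Flip Γ cb x y := by
  obtain ⟨g, ⟨h1, h2⟩ | ⟨h1, h2⟩⟩ := hpair x y x' y' h h'
  · exact flip_smul hcb hG g (flip_of hcb hG hf h1 h2)
  · exact flip_smul hcb hG g (flip_of hcb hG (flip_symm' hcb hG hf) h1 h2)

include hcb hne hG in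
/-- All points are linked, or the classes are the pairs. -/
theorem classes (hpair : PairHom Γ cb) :
    (∀ x y : Y, Link Γ cb x y) ∨ ∀ x y : Y, Link Γ cb x y → y = x ∨ y = cb x := by
  by_cases h : ∃ x y : Y, Kern.NP cb x y ∧ ¬ Flip Γ cb x y
  · left
    obtain ⟨x₀, y₀, h0, h1⟩ := h
    intro x y
    by_cases h2 : y = x
    · subst h2
      exact link_refl y
    by_cases h3 : y = cb x
    · subst h3
      exact link_cb hcb hne hG x
    · exact Relation.EqvGen.rel _ _ fun hf => h1 (flip_hom hcb hG hpair h0 ⟨h2, h3⟩ hf)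
  · right
    push Not at h
    intro x y hxy
    unfold Link at hxy
    induction hxy with
    | rel x y hxy =>
      by_contra hcon
      push Not at hcon
      exact hxy (h x y hcon)
    | refl x => exact Or.inl rfl
    | symm x y _ ih =>
      rcases ih with rfl | rfl
      · exact Or.inl rfl
      · exact Or.inr (hcb x).symm
    | trans x y z _ _ h1 h2 =>
      rcases h1 with rfl | rfl <;> rcases h2 with rfl | rfl
      · exact Or.inl rfl
      · exact Or.inr rfl
      · exact Or.inr rfl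
      · exact Or.inl (hcb x)

end

variable [Fintype Y] {W : Y → ℤ} (hcb : ∀ y, cb (cb y) = y) (hne : ∀ y, cb y ≠ y)
  (hG : ∀ (g : Γ) (y : Y), g • cb y = cb (g • y)) (hW : ∀ y, W (cb y) = -W y)

include hcb hne in
/-- The relations between two points are symmetric. -/
theorem symm_of_elm (hsep : ∀ x y : Y, W x + W y = 0 → y = cb x) {n : Y → ℤ}
    (hn : n ∈ AddSubgroup.closure (Elm Γ W)) (x : Y) : n (cb x) = n x := by
  classical
  induction hn using AddSubgroup.closure_induction with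
  | mem n hn =>
    obtain ⟨hrel, m, hm, hm2⟩ := hn
    have hcnt : ∀ y, (∑ z, m z • ({z} : Multiset Y)).count y = m y := by
      intro y
      rw [Multiset.count_sum']
      simp only [Multiset.count_nsmul, Multiset.count_singleton]
      simp
    set s : Multiset Y := ∑ z, m z • ({z} : Multiset Y) with hs
    have hcard : s.card = ∑ y, m y := by
      rw [hs, Multiset.card_sum]
      exact Finset.sum_congr rfl fun y _ => by simp
    have hsum : (s.map W).sum = 0 := by
      have h1 := hrel 1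
      simp only [one_smul] at h1
      rw [← h1, hs]
      have h2 : ∀ t : Finset Y, ((∑ z ∈ t, m z • ({z} : Multiset Y)).map W).sum =
          ∑ z ∈ t, n z * W z := by
        intro t
        induction t using Finset.induction_on with
        | empty => simp
        | insert a t ha ih =>
          rw [Finset.sum_insert ha, Finset.sum_insert ha, Multiset.map_add, Multiset.sum_add, ih,
            Multiset.map_nsmul, Multiset.sum_nsmul, hm]
          simp
      exact h2 Finset.univ
    rw [hm, hm, ← hcnt, ← hcnt]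
    have h3 : s.card = 0 ∨ s.card = 1 ∨ s.card = 2 := by
      rw [hcard]
      omega
    rcases h3 with h3 | h3 | h3
    · rw [Multiset.card_eq_zero] at h3
      rw [h3]
      simp
    · obtain ⟨y, h4⟩ := Multiset.card_eq_one.1 h3
      rw [h4, Multiset.map_singleton, Multiset.sum_singleton] at hsum
      exact absurd (hsep y y (by rw [hsum, add_zero])).symm (hne y)
    · obtain ⟨y, z, h4⟩ := Multiset.card_eq_two.1 h3
      rw [h4] at hsum ⊢
      simp only [Multiset.insert_eq_cons, Multiset.map_cons, Multiset.map_singleton,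
        Multiset.sum_cons, Multiset.sum_singleton] at hsum
      have h5 := hsep y z hsum
      subst h5
      simp only [Multiset.insert_eq_cons, Multiset.count_cons, Multiset.count_singleton]
      have e1 : cb x = cb y ↔ x = y := ⟨fun h => by rw [← hcb x, h, hcb], fun h => by rw [h]⟩
      have e2 : cb x = y ↔ x = cb y := ⟨fun h => by rw [← h, hcb], fun h => by rw [h, hcb]⟩
      simp only [e1, e2]
      push_cast
      ring
  | zero => rfl
  | add a b _ _ ha hb => rw [Pi.add_apply, Pi.add_apply, ha, hb]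
  | neg a _ ha => rw [Pi.neg_apply, Pi.neg_apply, ha]

include hcb hne hG hW in
/-- **Short relations are symmetric.** -/
theorem short_symm (htr : ∀ x y : Y, ∃ g : Γ, g • x = y) (hpair : PairHom Γ cb)
    {b r : ℕ} (hb : Nat.card Y = 2 * b) (hframe : ¬ HasFrame r b)
    (hsep : ∀ x y : Y, W x + W y = 0 → y = cb x) {d : Y → ℕ}
    (hd : Rel Γ W (fun y => (d y : ℤ))) (hr : ∑ y, d y ≤ 2 * r) (x : Y) : d (cb x) = d x := by
  classical
  have hcl : ClassPair Γ cb x := by
    intro y z y' z' _ _ _ _ h1 h2 h3 h4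
    exact hpair y z y' z' ⟨h1, h2⟩ ⟨h3, h4⟩
  have key : ∃ b' : ℕ, Nat.card (Cl Γ cb x) = 2 * b' ∧ ¬ HasFrame r b' := by
    rcases classes hcb hne hG hpair with h | h
    · refine ⟨b, ?_, hframe⟩
      rw [← hb]
      exact Nat.card_congr (Equiv.subtypeUnivEquiv (h x))
    · refine ⟨1, ?_, fun h1 => absurd h1.1 (lt_irrefl 1)⟩
      have h1 : ∀ y : Y, Link Γ cb x y ↔ y ∈ ({x, cb x} : Finset Y) := by
        intro y
        rw [Finset.mem_insert, Finset.mem_singleton]
        refine ⟨h x y, ?_⟩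
        rintro (rfl | rfl)
        · exact link_refl y
        · exact link_cb hcb hne hG x
      rw [Nat.card_congr (Equiv.subtypeEquivRight h1), Nat.card_eq_fintype_card,
        Fintype.card_coe, Finset.card_pair (hne x).symm]
  obtain ⟨b', hb', hf'⟩ := key
  have h1 := short_hom hcb hne hG hW (fun z _ => htr x z) hcl hb' hf' hd hr
  have h2 := symm_of_elm hcb hne hsep h1 x
  have h3 : ∀ y, Link Γ cb x y → restrC Γ cb x (fun y => (d y : ℤ)) y = d y := by
    intro y hy
    unfold restrC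
    rw [if_pos hy]
  rw [h3 x (link_refl x), h3 (cb x) (link_cb hcb hne hG x)] at h2
  exact_mod_cast h2

end Pool.Agent.V7H82.PR
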