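import Mathlib

/-!
# Homomorphisms to the integers which do not vanish at finitely many elements of infinite order
-/

namespace Pool.Agent.V7H82.PR

open Module

open Polynomial in
theorem avoid {n : ℕ} (F : Finset (Fin n → ℤ)) (hF : ∀ v ∈ F, v ≠ 0) :
    ∃ t : ℤ, ∀ v ∈ F, ∑ i, v i * t ^ (i : ℕ) ≠ 0 := by
  classical
  let p : (Fin n → ℤ) → ℤ[X] := fun v => ∑ i, C (v i) * X ^ (i : ℕ)
  have hp : ∀ v, v ≠ 0 → p v ≠ 0 := by
    intro v hv h0
    apply hv
    funext i
    have h1 := congrArg (fun q : ℤ[X] => q.coeff (i : ℕ)) h0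
    simp only [p, finsetSum_coeff, coeff_C_mul, coeff_X_pow, coeff_zero] at h1
    rw [Finset.sum_eq_single i] at h1
    · simpa using h1
    · intro j _ hj
      have : (i : ℕ) ≠ j := fun h => hj (Fin.ext h.symm)
      simp [this]
    · intro h
      exact absurd (Finset.mem_univ i) h
  have h1 : (∏ v ∈ F, p v) ≠ 0 := Finset.prod_ne_zero_iff.2 fun v hv => hp v (hF v hv)
  obtain ⟨t, ht⟩ : ∃ t : ℤ, (∏ v ∈ F, p v).eval t ≠ 0 := by
    by_contra hcon
    push Not at hcon
    exact h1 (Polynomial.funext fun t => by rw [hcon t, eval_zero])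
  refine ⟨t, fun v hv h2 => ht ?_⟩
  rw [eval_prod]
  refine Finset.prod_eq_zero hv ?_
  simp only [p, eval_finsetSum, eval_mul, eval_C, eval_pow, eval_X]
  exact h2

/-- A homomorphism from a finitely generated abelian group to the integers which does not vanish at
finitely many elements of infinite order. -/
theorem exists_hom {N : Type*} [AddCommGroup N] [Module.Finite ℤ N] (F : Finset N)
    (hF : ∀ v ∈ F, ∀ n : ℕ, 0 < n → n • v ≠ 0) : ∃ f : N →+ ℤ, ∀ v ∈ F, f v ≠ 0 := by
  classical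
  let Q := N ⧸ Submodule.torsion ℤ N
  have hfree : Module.Free ℤ Q := inferInstance
  let b := Module.finBasis ℤ Q
  let c : N → (Fin (finrank ℤ Q) → ℤ) := fun v => b.equivFun (Submodule.Quotient.mk v)
  obtain ⟨t, ht⟩ := avoid (F.image c) (by
    intro w hw
    obtain ⟨v, hv, rfl⟩ := Finset.mem_image.1 hw
    intro h0
    have h1 : (Submodule.Quotient.mk v : Q) = 0 := by
      apply b.equivFun.injective
      rw [map_zero]
      exact h0
    rw [Submodule.Quotient.mk_eq_zero, Submodule.mem_torsion_iff] at h1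
    obtain ⟨a, ha⟩ := h1
    have ha0 : (a : ℤ) ≠ 0 := nonZeroDivisors.coe_ne_zero a
    have h2 : (a : ℤ) • v = 0 := ha
    refine hF v hv (a : ℤ).natAbs (Int.natAbs_pos.2 ha0) ?_
    rw [← natCast_zsmul]
    rcases Int.natAbs_eq (a : ℤ) with h3 | h3
    · rw [← h3]
      exact h2
    · have h4 : ((a : ℤ).natAbs : ℤ) = -(a : ℤ) := by omega
      rw [h4, neg_smul, h2, neg_zero])
  let f : N →ₗ[ℤ] ℤ := (∑ i : Fin (finrank ℤ Q), (t ^ (i : ℕ)) • (LinearMap.proj i :
    (Fin (finrank ℤ Q) → ℤ) →ₗ[ℤ] ℤ)) ∘ₗ b.equivFun.toLinearMap ∘ₗ (Submodule.mkQ _)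
  refine ⟨f.toAddMonoidHom, fun v hv h0 => ht (c v) (Finset.mem_image_of_mem c hv) ?_⟩
  have h1 : f v = ∑ i : Fin (finrank ℤ Q), t ^ (i : ℕ) * c v i := by
    simp only [f, LinearMap.comp_apply, LinearMap.sum_apply, LinearMap.smul_apply,
      LinearMap.proj_apply, smul_eq_mul]
    rfl
  have h2 : f v = 0 := h0
  rw [← h2, h1]
  exact Finset.sum_congr rfl fun i _ => mul_comm _ _

/-- The same on the subgroup generated by a finite set. -/
theorem exists_weight {A : Type*} [AddCommGroup A] (s : Set A) (hs : s.Finite) (F : Set A)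
    (hF0 : F.Finite) (hF : ∀ v ∈ F, v ∈ AddSubgroup.closure s ∧ ∀ n : ℕ, 0 < n → n • v ≠ 0) :
    ∃ f : AddSubgroup.closure s →+ ℤ, ∀ v : AddSubgroup.closure s, (v : A) ∈ F → f v ≠ 0 := by
  classical
  have h1 : AddGroup.FG (AddSubgroup.closure s) :=
    (AddGroup.fg_iff_addSubgroup_fg _).2 ⟨hs.toFinset, by rw [hs.coe_toFinset]⟩
  have h2 : Module.Finite ℤ (AddSubgroup.closure s) := Module.Finite.iff_addGroup_fg.2 h1
  have hfin : {v : AddSubgroup.closure s | (v : A) ∈ F}.Finite :=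
    hF0.preimage (Subtype.val_injective.injOn)
  obtain ⟨f, hf⟩ := exists_hom hfin.toFinset (by
    intro v hv n hn h0
    rw [hfin.mem_toFinset] at hv
    refine (hF v hv).2 n hn ?_
    have h3 := congrArg Subtype.val h0
    exact h3)
  exact ⟨f, fun v hv => hf v (hfin.mem_toFinset.2 hv)⟩

end Pool.Agent.V7H82.PR
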