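import Mathlib
import Pool.Agent.V7H82.PR.Hom
import Pool.Agent.V7H82.PR.Wt

/-!
# Short multiplicative relations between the roots of a polynomial with doubly homogeneous pairs of
# roots
-/

set_option linter.unusedSectionVars false
set_option linter.unusedVariables false

namespace Pool.Agent.V7H82.PR

open Polynomial Pool.Agent.V7H82.TG Pool.Agent.V7H82.HT Pool.Agent.V7H82.LR

/-- The algebraic closure of the rational numbers. -/
abbrev QB : Type := AlgebraicClosure ℚ

/-- The algebraic numbers `x` and `y` are equal, or their product is `q`. -/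
def SameRootPair (q : ℚ) (x y : QB) : Prop := x = y ∨ x * y = (q : QB)

/-- The roots of `P` are conjugate, and any two pairs `{x, q / x}` of roots can be moved to any two
others by the Galois group. -/
def HomogeneousRoots (q : ℚ) (P : ℚ[X]) : Prop :=
  (∀ x y : QB, aeval x P = 0 → aeval y P = 0 → ∃ σ : QB ≃ₐ[ℚ] QB, σ x = y) ∧
  ∀ x y x' y' : QB, aeval x P = 0 → aeval y P = 0 → aeval x' P = 0 → aeval y' P = 0 →
    ¬ SameRootPair q x y → ¬ SameRootPair q x' y' → ∃ σ : QB ≃ₐ[ℚ] QB,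
      (SameRootPair q (σ x) x' ∧ SameRootPair q (σ y) y') ∨
      (SameRootPair q (σ x) y' ∧ SameRootPair q (σ y) x')

noncomputable section

/-- The roots. -/
abbrev Rt (P : ℚ[X]) : Type := {x : QB // aeval x P = 0}

theorem root_smul {P : ℚ[X]} (σ : QB ≃ₐ[ℚ] QB) {x : QB} (hx : aeval x P = 0) :
    aeval (σ x) P = 0 := by
  have h1 : aeval (σ x) P = σ (aeval x P) := aeval_algHom_apply σ.toAlgHom x P
  rw [h1, hx, map_zero]

instance rtAct (P : ℚ[X]) : MulAction (QB ≃ₐ[ℚ] QB) (Rt P) where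
  smul σ x := ⟨σ x.1, root_smul σ x.2⟩
  one_smul _ := rfl
  mul_smul _ _ _ := rfl

theorem rt_smul {P : ℚ[X]} (σ : QB ≃ₐ[ℚ] QB) (x : Rt P) : ((σ • x : Rt P) : QB) = σ x.1 := rfl

instance rtFinite (P : ℚ[X]) [h : Fact (P ≠ 0)] : Finite (Rt P) := by
  have h1 : {x : QB | aeval x P = 0} = P.rootSet QB := by
    ext x
    rw [mem_rootSet]
    exact ⟨fun hx => ⟨h.out, hx⟩, fun hx => hx.2⟩
  have h2 : {x : QB | aeval x P = 0}.Finite := by
    rw [h1]
    exact rootSet_finite P QB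
  exact h2.to_subtype

variable {P : ℚ[X]} {q : ℚ} (hq : q ≠ 0)
  (hinv : ∀ x : QB, aeval x P = 0 → x ≠ 0 ∧ aeval ((q : QB) / x) P = 0)

/-- The involution. -/
def rc (x : Rt P) : Rt P := ⟨(q : QB) / x.1, (hinv x.1 x.2).2⟩

include hq in
theorem rc_rc (x : Rt P) : rc hinv (rc hinv x) = x := by
  apply Subtype.ext
  change (q : QB) / ((q : QB) / x.1) = x.1
  have h1 : (q : QB) ≠ 0 := by exact_mod_cast hq
  have h2 := (hinv x.1 x.2).1
  field_simp

theorem rc_smul (σ : QB ≃ₐ[ℚ] QB) (x : Rt P) : σ • rc hinv x = rc hinv (σ • x) := by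
  apply Subtype.ext
  change σ ((q : QB) / x.1) = (q : QB) / σ x.1
  rw [map_div₀, map_ratCast]

include hq in
theorem rc_iff (x y : Rt P) : y = rc hinv x ↔ x.1 * y.1 = (q : QB) := by
  have h2 := (hinv x.1 x.2).1
  constructor
  · rintro rfl
    change x.1 * ((q : QB) / x.1) = _
    field_simp
  · intro h
    apply Subtype.ext
    change y.1 = (q : QB) / x.1
    rw [eq_div_iff h2, mul_comm, h]

include hq hinv in
/-- **Short multiplicative relations are trivial.** -/
theorem roots_symm [Fact (P ≠ 0)] (hhom : HomogeneousRoots q P)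
    (hpow : ∀ (k : ℕ) (x y : QB), 0 < k → aeval x P = 0 → aeval y P = 0 → x ^ k = y ^ k → x = y)
    (hself : ∀ x : QB, aeval x P = 0 → x * x ≠ (q : QB)) {b r : ℕ} (hb : Nat.card (Rt P) = 2 * b)
    (hframe : ¬ HasFrame r b) [Fintype (Rt P)] {d : Rt P → ℕ}
    (hd : (∏ x, x.1 ^ d x) ^ 2 = (q : QB) ^ (∑ x, d x)) (hr : ∑ x, d x ≤ 2 * r) (x : Rt P) :
    d (rc hinv x) = d x := by
  classical
  have hqB : (q : QB) ≠ 0 := by exact_mod_cast hq
  have h0 : ∀ x : Rt P, x.1 ≠ 0 := fun x => (hinv x.1 x.2).1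
  let u : Rt P → QBˣ := fun x => Units.mk0 (x.1 ^ 2 / (q : QB)) (div_ne_zero (pow_ne_zero 2 (h0 x)) hqB)
  let s : Set (Additive QBˣ) := Set.range fun x : Rt P => Additive.ofMul (u x)
  let F : Set (Additive QBˣ) := (fun p : Rt P × Rt P => Additive.ofMul (u p.1 * u p.2)) ''
    {p | p.2 ≠ rc hinv p.1}
  obtain ⟨f, hf⟩ := exists_weight s (Set.toFinite _) F (Set.toFinite _) (by
    rintro _ ⟨⟨x, y⟩, hxy, rfl⟩
    refine ⟨?_, fun n hn h1 => hxy ?_⟩
    · change Additive.ofMul (u x * u y) ∈ _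
      rw [ofMul_mul]
      exact AddSubgroup.add_mem _ (AddSubgroup.subset_closure ⟨x, rfl⟩)
        (AddSubgroup.subset_closure ⟨y, rfl⟩)
    · rw [← ofMul_pow] at h1
      have h2 : (u x * u y) ^ n = 1 := h1
      have h3 := congrArg (Units.val) h2
      simp only [Units.val_pow_eq_pow_val, Units.val_mul, Units.val_one, u, Units.val_mk0] at h3
      have h4 : x.1 ^ (2 * n) = ((q : QB) / y.1) ^ (2 * n) := by
        have hy := h0 y
        rw [div_mul_div_comm, div_pow, div_eq_one_iff_eq (pow_ne_zero n (mul_ne_zero hqB hqB))] at h3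
        rw [div_pow, eq_div_iff (pow_ne_zero _ hy)]
        calc x.1 ^ (2 * n) * y.1 ^ (2 * n) = (x.1 ^ 2 * y.1 ^ 2) ^ n := by ring
          _ = ((q : QB) * (q : QB)) ^ n := h3
          _ = (q : QB) ^ (2 * n) := by ring
      have h5 := hpow (2 * n) _ _ (by omega) x.2 (hinv y.1 y.2).2 h4
      have h6 : x.1 * y.1 = (q : QB) := by
        rw [h5]
        field_simp [h0 y]
      exact (rc_iff hq hinv x y).2 h6)
  let g : Rt P → AddSubgroup.closure s := fun x =>
    ⟨Additive.ofMul (u x), AddSubgroup.subset_closure ⟨x, rfl⟩⟩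
  let W : Rt P → ℤ := fun x => f (g x)
  have hW : ∀ x, W (rc hinv x) = - W x := by
    intro x
    have h1 : g (rc hinv x) = - g x := by
      apply Subtype.ext
      change Additive.ofMul (u (rc hinv x)) = - Additive.ofMul (u x)
      rw [← ofMul_inv]
      congr 1
      apply Units.ext
      rw [Units.val_inv_eq_inv_val]
      change ((q : QB) / x.1) ^ 2 / (q : QB) = (x.1 ^ 2 / (q : QB))⁻¹
      have := h0 x
      field_simp
    change f (g (rc hinv x)) = - f (g x)
    rw [h1, map_neg]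
  have hsep : ∀ x y, W x + W y = 0 → y = rc hinv x := by
    intro x y h1
    by_contra h2
    refine hf (g x + g y) ⟨(x, y), h2, ?_⟩ ?_
    · change Additive.ofMul (u x * u y) = _
      rw [ofMul_mul]
      rfl
    · rw [map_add]
      exact h1
  have hrel : Rel (QB ≃ₐ[ℚ] QB) W (fun y => (d y : ℤ)) := by
    intro σ
    have h1 : (∏ x, (σ x.1) ^ d x) ^ 2 = (q : QB) ^ (∑ x, d x) := by
      have h2 := congrArg σ hd
      rw [map_pow, map_prod, map_pow, map_ratCast] at h2
      rw [← h2]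
      congr 1
      exact Finset.prod_congr rfl fun x _ => (map_pow σ _ _).symm
    have h2 : ∏ x : Rt P, u (σ • x) ^ d x = 1 := by
      apply Units.ext
      rw [Units.coe_prod, Units.val_one]
      have h3 : ∀ x : Rt P, ((u (σ • x) ^ d x : QBˣ) : QB) = (σ x.1 ^ d x) ^ 2 / (q : QB) ^ d x := by
        intro x
        rw [Units.val_pow_eq_pow_val]
        change ((σ x.1) ^ 2 / (q : QB)) ^ d x = _
        rw [div_pow, ← pow_mul, ← pow_mul, mul_comm 2]
      rw [Finset.prod_congr rfl fun x _ => h3 x, Finset.prod_div_distrib, Finset.prod_pow,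
        Finset.prod_pow_eq_pow_sum, h1, div_self (pow_ne_zero _ hqB)]
    have h3 : ∑ x : Rt P, d x • g (σ • x) = 0 := by
      apply Subtype.ext
      change (AddSubgroup.closure s).subtype (∑ x : Rt P, d x • g (σ • x)) = 0
      rw [map_sum]
      have h4 : ∀ x : Rt P, (AddSubgroup.closure s).subtype (d x • g (σ • x)) =
          Additive.ofMul (u (σ • x) ^ d x) := fun x => by
        rw [ofMul_pow]
        rfl
      rw [Finset.sum_congr rfl fun x _ => h4 x, ← ofMul_prod, h2]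
      rfl
    have h5 := congrArg f h3
    rw [map_sum, map_zero] at h5
    rw [← h5]
    refine Finset.sum_congr rfl fun x _ => ?_
    rw [map_nsmul, nsmul_eq_mul]
  have hne : ∀ y : Rt P, rc hinv y ≠ y := by
    intro y h1
    exact hself y.1 y.2 ((rc_iff hq hinv y y).1 h1.symm)
  have hnp : ∀ x y : Rt P, Kern.NP (rc hinv) x y → ¬ SameRootPair q x.1 y.1 := by
    rintro x y ⟨h1, h2⟩ (h3 | h3)
    · exact h1 (Subtype.ext h3).symm
    · exact h2 ((rc_iff hq hinv x y).2 h3)
  have hsp : ∀ x y : Rt P, SameRootPair q x.1 y.1 → x = y ∨ x = rc hinv y := by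
    rintro x y (h1 | h1)
    · exact Or.inl (Subtype.ext h1)
    · exact Or.inr ((rc_iff hq hinv y x).2 (by rw [mul_comm, h1]))
  refine short_symm (Γ := QB ≃ₐ[ℚ] QB) (rc_rc hq hinv) hne (rc_smul hinv) hW ?_ ?_ hb hframe hsep
    hrel hr x
  · intro x y
    obtain ⟨σ, hσ⟩ := hhom.1 x.1 y.1 x.2 y.2
    exact ⟨σ, Subtype.ext hσ⟩
  · intro x y x' y' h1 h2
    obtain ⟨σ, ⟨h3, h4⟩ | ⟨h3, h4⟩⟩ := hhom.2 x.1 y.1 x'.1 y'.1 x.2 y.2 x'.2 y'.2 (hnp x y h1)
      (hnp x' y' h2)
    · exact ⟨σ, Or.inl ⟨hsp (σ • x) x' h3, hsp (σ • y) y' h4⟩⟩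
    · exact ⟨σ, Or.inr ⟨hsp (σ • x) y' h3, hsp (σ • y) x' h4⟩⟩

end

end Pool.Agent.V7H82.PR
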