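import Mathlib
import Pool.Agent.V7H82.PR.Poly

/-!
# Relations of length three and four between the roots
-/

set_option linter.unusedSectionVars false
set_option linter.unusedVariables false

namespace Pool.Agent.V7H82.PR

open Polynomial Pool.Agent.V7H82.TG Pool.Agent.V7H82.HT Pool.Agent.V7H82.LR

noncomputable section

variable {P : ℚ[X]}

theorem prod_count [Fintype (Rt P)] [DecidableEq (Rt P)] (s : Multiset (Rt P)) :
    ∏ t : Rt P, t.1 ^ s.count t = (s.map Subtype.val).prod := by
  induction s using Multiset.induction_on with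
  | empty => simp
  | cons a s ih =>
    rw [Multiset.map_cons, Multiset.prod_cons, ← ih]
    have h1 : ∀ t : Rt P, t.1 ^ (a ::ₘ s).count t = t.1 ^ s.count t * if t = a then t.1 else 1 := by
      intro t
      rw [Multiset.count_cons, pow_add]
      congr 1
      split_ifs <;> simp
    rw [Finset.prod_congr rfl fun t _ => h1 t, Finset.prod_mul_distrib, Finset.prod_ite_eq',
      if_pos (Finset.mem_univ _), mul_comm]

theorem sum_count [Fintype (Rt P)] [DecidableEq (Rt P)] (s : Multiset (Rt P)) :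
    ∑ t : Rt P, s.count t = s.card := by
  induction s using Multiset.induction_on with
  | empty => simp
  | cons a s ih =>
    simp only [Multiset.count_cons, Finset.sum_add_distrib, ih, Multiset.card_cons]
    simp

variable {q : ℚ} (hq : q ≠ 0)
  (hinv : ∀ x : QB, aeval x P = 0 → x ≠ 0 ∧ aeval ((q : QB) / x) P = 0)
  (hhom : HomogeneousRoots q P)
  (hpow : ∀ (k : ℕ) (x y : QB), 0 < k → aeval x P = 0 → aeval y P = 0 → x ^ k = y ^ k → x = y)
  (hself : ∀ x : QB, aeval x P = 0 → x * x ≠ (q : QB)) {b : ℕ} (hb : Nat.card (Rt P) = 2 * b)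
  (hframe : b ≠ 3 ∧ b ≠ 4 ∧ b ≠ 10 ∧ b ≠ 16 ∧ b ≠ 28)

include hq hinv hhom hpow hself hb hframe in
/-- The conjugate of a member of a short relation is a member. -/
theorem mem_of_rel (hP : P ≠ 0) (s : Multiset (Rt P)) (hs : s.card ≤ 4)
    (hrel : (s.map Subtype.val).prod ^ 2 = (q : QB) ^ s.card) {x : Rt P} (hx : x ∈ s) :
    rc hinv x ∈ s := by
  classical
  have hf : Fact (P ≠ 0) := ⟨hP⟩
  have _ : Fintype (Rt P) := Fintype.ofFinite _
  have h1 := roots_symm hq hinv hhom hpow hself hb (r := 2) (by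
    rw [hasFrame_two]
    tauto) (d := fun t => s.count t) (by
      rw [prod_count, sum_count, hrel]) (by rw [sum_count]; omega) x
  rw [← Multiset.one_le_count_iff_mem] at hx ⊢
  omega

include hq hinv hhom hpow hself hb hframe in
/-- **There are no nontrivial relations of length four.** -/
theorem generic (hP : P ≠ 0) {x y z w : QB} (hx : aeval x P = 0) (hy : aeval y P = 0)
    (hz : aeval z P = 0) (hw : aeval w P = 0) (hxy : x ≠ y) (h : x * w = z * y) :
    (z = x ∧ w = y) ∨ (z * y = (q : QB) ∧ w * x = (q : QB)) := by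
  have hqB : (q : QB) ≠ 0 := by exact_mod_cast hq
  obtain ⟨hx0, -⟩ := hinv x hx
  obtain ⟨hy0, hy'⟩ := hinv y hy
  obtain ⟨hz0, hz'⟩ := hinv z hz
  let X : Rt P := ⟨x, hx⟩
  let Y : Rt P := ⟨y, hy⟩
  let Z : Rt P := ⟨z, hz⟩
  let V : Rt P := ⟨w, hw⟩
  have hmem := mem_of_rel hq hinv hhom hpow hself hb hframe hP
    (X ::ₘ V ::ₘ rc hinv Z ::ₘ {rc hinv Y}) (by simp) (by
      simp only [Multiset.map_cons, Multiset.map_singleton, Multiset.prod_cons,
        Multiset.prod_singleton, Multiset.card_cons, Multiset.card_singleton]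
      change (x * (w * ((q : QB) / z * ((q : QB) / y)))) ^ 2 = (q : QB) ^ 4
      have h1 : x * (w * ((q : QB) / z * ((q : QB) / y))) = (q : QB) ^ 2 := by
        field_simp
        linear_combination h
      rw [h1]
      ring) (x := X) (by simp)
  simp only [Multiset.mem_cons, Multiset.mem_singleton] at hmem
  have hcb : ∀ u v : Rt P, rc hinv u = rc hinv v → u = v := fun u v h => by
    rw [← rc_rc hq hinv u, h, rc_rc hq hinv]
  rcases hmem with h1 | h1 | h1 | h1
  · exact absurd ((rc_iff hq hinv X X).1 h1.symm) (hself x hx)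
  · right
    have h2 : x * w = (q : QB) := (rc_iff hq hinv X V).1 h1.symm
    exact ⟨by rw [← h, h2], by rw [mul_comm, h2]⟩
  · left
    have h2 : x = z := congrArg Subtype.val (hcb X Z h1)
    refine ⟨h2.symm, ?_⟩
    rw [h2] at h
    exact mul_left_cancel₀ hz0 h
  · exact absurd (congrArg Subtype.val (hcb X Y h1)) hxy

end

section one

variable {P : ℚ[X]}
  (hinv : ∀ x : QB, aeval x P = 0 → x ≠ 0 ∧ aeval x⁻¹ P = 0)
  (hhom : HomogeneousRoots 1 P)
  (hpow : ∀ (k : ℕ) (x y : QB), 0 < k → aeval x P = 0 → aeval y P = 0 → x ^ k = y ^ k → x = y)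
  {b : ℕ} (hb : Nat.card (Rt P) = 2 * b)
  (hframe : b ≠ 3 ∧ b ≠ 4 ∧ b ≠ 10 ∧ b ≠ 16 ∧ b ≠ 28)

include hinv in
theorem hinv_one (x : QB) (hx : aeval x P = 0) : x ≠ 0 ∧ aeval (((1 : ℚ) : QB) / x) P = 0 := by
  rw [Rat.cast_one, one_div]
  exact hinv x hx

include hhom hb in
/-- The roots are not `1` or `-1`. -/
theorem self_one (x : QB) (hx : aeval x P = 0) : x * x ≠ ((1 : ℚ) : QB) := by
  intro h
  rw [Rat.cast_one] at h
  have h1 : x = 1 ∨ x = -1 := by
    have h2 : (x - 1) * (x + 1) = 0 := by linear_combination h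
    rcases mul_eq_zero.1 h2 with h3 | h3
    · exact Or.inl (by linear_combination h3)
    · exact Or.inr (by linear_combination h3)
  have h2 : ∀ σ : QB ≃ₐ[ℚ] QB, σ x = x := by
    intro σ
    rcases h1 with rfl | rfl
    · exact map_one σ
    · rw [map_neg, map_one]
  have h3 : ∀ y : Rt P, y = ⟨x, hx⟩ := by
    intro y
    obtain ⟨σ, hσ⟩ := hhom.1 x y.1 hx y.2
    apply Subtype.ext
    rw [← hσ, h2]
  have h4 : Subsingleton (Rt P) := ⟨fun u v => by rw [h3 u, h3 v]⟩
  have h5 : Nonempty (Rt P) := ⟨⟨x, hx⟩⟩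
  have h6 : Nat.card (Rt P) = 1 := Nat.card_eq_one_iff_unique.2 ⟨h4, h5⟩
  omega

include hinv hhom hpow hb hframe in
/-- **There are no relations of length three.** -/
theorem no_three (hP : P ≠ 0) {x y z : QB} (hx : aeval x P = 0) (hy : aeval y P = 0)
    (hz : aeval z P = 0) : x * y ≠ z := by
  intro h
  have hi := hinv_one hinv
  have hself := self_one hhom hb
  obtain ⟨hx0, -⟩ := hinv x hx
  obtain ⟨hy0, -⟩ := hinv y hy
  obtain ⟨hz0, -⟩ := hinv z hz
  let X : Rt P := ⟨x, hx⟩
  let Y : Rt P := ⟨y, hy⟩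
  let Z : Rt P := ⟨z, hz⟩
  have hmem := mem_of_rel one_ne_zero hi hhom hpow hself hb hframe hP
    (X ::ₘ Y ::ₘ {rc hi Z}) (by simp) (by
      simp only [Multiset.map_cons, Multiset.map_singleton, Multiset.prod_cons,
        Multiset.prod_singleton, Multiset.card_cons, Multiset.card_singleton]
      change (x * (y * (((1 : ℚ) : QB) / z))) ^ 2 = ((1 : ℚ) : QB) ^ 3
      rw [Rat.cast_one, ← h]
      field_simp
      ) (x := X) (by simp)
  simp only [Multiset.mem_cons, Multiset.mem_singleton] at hmem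
  have hcb : ∀ u v : Rt P, rc hi u = rc hi v → u = v := fun u v h => by
    rw [← rc_rc one_ne_zero hi u, h, rc_rc one_ne_zero hi]
  have hone : ∀ u : QB, aeval u P = 0 → u ≠ 1 := by
    rintro u hu rfl
    exact hself 1 hu (by rw [Rat.cast_one, one_mul])
  rcases hmem with h1 | h1 | h1
  · exact absurd ((rc_iff one_ne_zero hi X X).1 h1.symm) (hself x hx)
  · have h2 : x * y = ((1 : ℚ) : QB) := (rc_iff one_ne_zero hi X Y).1 h1.symm
    rw [h, Rat.cast_one] at h2
    exact hone z hz h2
  · have h2 : x = z := congrArg Subtype.val (hcb X Z h1)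
    apply hone y hy
    rw [← h2] at h
    exact mul_left_cancel₀ hx0 (by rw [h, mul_one])

end one

end Pool.Agent.V7H82.PR
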