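import Pool.Agent.R932.EV.All
import Pool.Agent.R932.MtOdd
import Pool.Agent.V7H82.PR.Place

/-!
# The Mumford-Tate conjecture for `H²` at one prime `ℓ`, from one Frobenius polynomial
-/

set_option autoImplicit false
set_option linter.unusedSectionVars false
set_option linter.style.haveILetI false

open Matrix Polynomial Filter Topology NumberField IsDedekindDomain
open Pool.Agent.Y142.ZO Pool.Agent.Y142.ZI
open Pool.Agent.Y142.ZS (NiceP)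
open Pool.Agent.Y142.ZD (GenO)
open Pool.Agent.Y95.MT
open Pool.Agent.W544.PG (HS BD)
open Pool.Agent.R932 (one1 qrep RepT qdet qsymm continuous_qm)
open Pool.Agent.R932.EV (SS SC strong_of_ss alg_top full_of_genO full_of_good)

namespace Pool.Agent.V7H82.PR

noncomputable section

section converse

variable {ℓ : ℕ} [Fact ℓ.Prime] {n : ℕ} {κ : Type} [Fintype κ] [DecidableEq κ] {Γ : Type}
  [Group Γ] {T : HS n} {p q : Fin 1 → ℕ}
  {β : Γ →* Matrix (Fin n) (Fin n) ℤ_[ℓ]} {v : Γ →* Matrix κ κ ℚ_[ℓ]}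

theorem col_top {F : Type} [Field F] :
    (Pool.Agent.Y95.MT.col (one1 n) 0 : Submodule F (Fin n → F)) = ⊤ := by
  rw [eq_top_iff]
  intro x _ a ha
  exact absurd rfl ha

/-- Matrices which commute with a subgroup of finite index commute with the points of the special
orthogonal group. -/
theorem comm_of_mtc (hB : T.Big (one1 n) p q)
    (h : MTC (hM (fun _ => (1 : Matrix κ κ ℂ)) T) (tot v β)) {Δ : Subgroup Γ} (hΔ : Δ.FiniteIndex)
    {A : Matrix (Fin n) (Fin n) ℚ_[ℓ]} (hA : ∀ s ∈ Δ, A * qm (β s) = qm (β s) * A)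
    {t : Matrix (Fin n) (Fin n) (AlgebraicClosure ℚ_[ℓ])} (ht : InSO (one1 n) T.Q t) :
    A.map (algebraMap ℚ_[ℓ] (AlgebraicClosure ℚ_[ℓ])) * t =
      t * A.map (algebraMap ℚ_[ℓ] (AlgebraicClosure ℚ_[ℓ])) := by
  obtain ⟨e⟩ := exists_emb ℓ
  have hVd : ∀ z : ℂ, z ≠ 0 → ((fun _ => (1 : Matrix κ κ ℂ)) z).det ≠ 0 := fun _ _ => by
    rw [Matrix.det_one]
    exact one_ne_zero
  obtain ⟨j, hj⟩ : ∃ j, j = algebraMap ℚ_[ℓ] (AlgebraicClosure ℚ_[ℓ]) := ⟨_, rfl⟩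
  rw [← hj]
  have hdet : (fromBlocks (1 : Matrix κ κ (AlgebraicClosure ℚ_[ℓ])) 0 0 t).det ≠ 0 := by
    rw [fb_det, Matrix.det_one, one_mul]
    exact InSO_det (W74.PG.det_ne T) ht
  have hg : InMT (hM (fun _ => (1 : Matrix κ κ ℂ)) T)
      (fromBlocks (1 : Matrix κ κ (AlgebraicClosure ℚ_[ℓ])) 0 0 t) := by
    rw [InMT_iff (c := one1 n) hB hVd star_N e hdet]
    rw [Matrix.toBlocks_fromBlocks₁₁, Matrix.toBlocks_fromBlocks₂₂]
    exact ⟨rfl, InMT_one e _, ht⟩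
  rw [← h _ hdet] at hg
  ext a b
  let f : MvPolynomial ((κ ⊕ Fin n) × (κ ⊕ Fin n)) (AlgebraicClosure ℚ_[ℓ]) :=
    ∑ c, (MvPolynomial.C (j (A a c)) * MvPolynomial.X (Sum.inr c, Sum.inr b) -
      MvPolynomial.X (Sum.inr a, Sum.inr c) * MvPolynomial.C (j (A c b)))
  have hev : ∀ (M : Matrix (κ ⊕ Fin n) (κ ⊕ Fin n) (AlgebraicClosure ℚ_[ℓ])),
      MvPolynomial.aeval (fun q : (κ ⊕ Fin n) × (κ ⊕ Fin n) => M q.1 q.2) f =
      (A.map j * M.toBlocks₂₂ - M.toBlocks₂₂ * A.map j) a b := by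
    intro M
    simp only [f, map_sum, map_sub, map_mul, MvPolynomial.aeval_C, MvPolynomial.aeval_X,
      Algebra.algebraMap_self, RingHom.id_apply, Matrix.sub_apply, Matrix.mul_apply,
      Matrix.map_apply, Finset.sum_sub_distrib]
    rfl
  have h1 := hg f ⟨Δ, hΔ, fun s hs => by
    have h2 := hev ((tot v β s).map j)
    have h3 : ((tot v β s).map j).toBlocks₂₂ = (qm (β s)).map j := rfl
    rw [h3, ← Matrix.map_mul, ← Matrix.map_mul, hA s hs, sub_self] at h2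
    rw [← hj]
    exact h2⟩
  rw [hev, Matrix.toBlocks_fromBlocks₂₂, Matrix.sub_apply, sub_eq_zero] at h1
  exact h1

/-- The Mumford-Tate conjecture implies that the commutants are scalar. -/
theorem scalar_of_mtc (hB : T.Big (one1 n) p q) (hn : 0 < n)
    (h : MTC (hM (fun _ => (1 : Matrix κ κ ℂ)) T) (tot v β)) {Δ : Subgroup Γ} (hΔ : Δ.FiniteIndex)
    {A : Matrix (Fin n) (Fin n) ℚ_[ℓ]} (hA : ∀ s ∈ Δ, A * qm (β s) = qm (β s) * A) :
    ∃ c : ℚ_[ℓ], A = c • (1 : Matrix (Fin n) (Fin n) ℚ_[ℓ]) := by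
  have hne : Nonempty (Fin n) := ⟨⟨0, hn⟩⟩
  obtain ⟨j, hj⟩ : ∃ j, j = algebraMap ℚ_[ℓ] (AlgebraicClosure ℚ_[ℓ]) := ⟨_, rfl⟩
  have hcomm : ∀ t : Matrix (Fin n) (Fin n) (AlgebraicClosure ℚ_[ℓ]), InSO (one1 n) T.Q t →
      A.map j * t = t * A.map j := fun t ht => by
    rw [hj]
    exact comm_of_mtc hB h hΔ hA ht
  obtain ⟨μ, hμ⟩ := Module.End.exists_eigenvalue (K := AlgebraicClosure ℚ_[ℓ])
    (toLin' (A.map j))
  let W : Submodule (AlgebraicClosure ℚ_[ℓ]) (Fin n → AlgebraicClosure ℚ_[ℓ]) :=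
    Module.End.eigenspace (toLin' (A.map j)) μ
  have hW : W = ⊥ ∨ W = Pool.Agent.Y95.MT.col (one1 n) 0 := by
    refine SO_irr (F := AlgebraicClosure ℚ_[ℓ]) T.symm hB.bQ (W74.PG.det_ne T) (Big.card hB 0)
      (by rw [col_top]; exact le_top) fun t ht w hw => ?_
    rw [Module.End.mem_eigenspace_iff] at hw ⊢
    rw [toLin'_apply] at hw ⊢
    rw [mulVec_mulVec, hcomm t ht, ← mulVec_mulVec, hw, mulVec_smul]
  rcases hW with hW | hW
  · exact absurd hW hμ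
  · rw [col_top] at hW
    have h1 : A.map j = μ • (1 : Matrix (Fin n) (Fin n) (AlgebraicClosure ℚ_[ℓ])) := by
      apply Matrix.toLin'.injective
      apply LinearMap.ext
      intro x
      have h2 : x ∈ W := by
        rw [hW]
        exact Submodule.mem_top
      have h3 := Module.End.mem_eigenspace_iff.1 h2
      rw [h3, toLin'_apply, smul_mulVec, one_mulVec]
    refine ⟨A ⟨0, hn⟩ ⟨0, hn⟩, ?_⟩
    have h2 : μ = j (A ⟨0, hn⟩ ⟨0, hn⟩) := by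
      have h3 := congrFun (congrFun h1 ⟨0, hn⟩) ⟨0, hn⟩
      rw [Matrix.map_apply, Matrix.smul_apply, Matrix.one_apply_eq, smul_eq_mul, mul_one] at h3
      exact h3.symm
    ext a b
    have h3 := congrFun (congrFun h1 a) b
    rw [Matrix.map_apply, h2] at h3
    apply j.injective
    rw [h3, Matrix.smul_apply, Matrix.smul_apply, smul_eq_mul, smul_eq_mul, map_mul,
      Matrix.one_apply, Matrix.one_apply]
    split_ifs <;> simp

end converse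

section place

variable {K : Type} [Field K] [NumberField K] {n : ℕ} {S : Set (HeightOneSpectrum (𝓞 K))}
  {P : HeightOneSpectrum (𝓞 K) → ℚ[X]} {Γ : Type} [Group Γ] [TopologicalSpace Γ]
  [IsTopologicalGroup Γ] [CompactSpace Γ] {s : GK K →* Γ} {T : HS n} {ℓ : ℕ} [Fact ℓ.Prime]
  {β : Γ →* Matrix (Fin n) (Fin n) ℤ_[ℓ]}

theorem finiteIndex_of_open {U : Subgroup Γ} (hU : IsOpen (U : Set Γ)) : U.FiniteIndex := by
  have h1 : Finite (Γ ⧸ U) := U.quotient_finite_of_isOpen hU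
  exact Subgroup.finiteIndex_of_finite_quotient

/-- The Mumford-Tate conjecture implies strong irreducibility. -/
theorem strong_of_mtc {κ : Type} [Fintype κ] [DecidableEq κ] {α : Γ →* Matrix κ κ ℚ_[ℓ]}
    {p q : Fin 1 → ℕ} (hB : T.Big (one1 n) p q)
    (h : MTC (hM (fun _ => (1 : Matrix κ κ ℂ)) T) (tot α β)) {Δ : Subgroup Γ}
    (hΔ : Δ.FiniteIndex) {W : Submodule ℚ_[ℓ] (Fin n → ℚ_[ℓ])}
    (hW : ∀ s ∈ Δ, ∀ w ∈ W, qrep β s *ᵥ w ∈ W) : W = ⊥ ∨ W = ⊤ := by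
  have hVd : ∀ z : ℂ, z ≠ 0 → ((fun _ => (1 : Matrix κ κ ℂ)) z).det ≠ 0 := fun _ _ => by
    rw [Matrix.det_one]
    exact one_ne_zero
  have h1 := SI_of_MTC hB hVd star_N h 0 Δ hΔ W (by rw [col_top]; exact le_top) hW
  rwa [col_top] at h1

theorem ss_sc_of_mtc {κ : Type} [Fintype κ] [DecidableEq κ] {α : Γ →* Matrix κ κ ℚ_[ℓ]}
    {p q : Fin 1 → ℕ} (hB : T.Big (one1 n) p q) (hn : 0 < n)
    (h : MTC (hM (fun _ => (1 : Matrix κ κ ℂ)) T) (tot α β)) : SS (qrep β) ∧ SC (qrep β) := by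
  refine ⟨fun W hW => ?_, fun A U hU hA => ?_⟩
  · have h1 : W = ⊥ ∨ W = ⊤ := strong_of_mtc (Δ := ⊤) hB h inferInstance
      (fun s _ w hw => hW s w hw)
    rcases h1 with rfl | rfl
    · exact ⟨⊤, isCompl_bot_top, fun _ _ _ => Submodule.mem_top⟩
    · exact ⟨⊥, isCompl_top_bot, fun σ w hw => by
        rw [Submodule.mem_bot] at hw ⊢
        rw [hw, mulVec_zero]⟩
  · exact scalar_of_mtc hB hn h (finiteIndex_of_open hU) hA

/-- The number of roots. -/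
theorem card_rt {Q : ℚ[X]} (hQ : Q.Separable) : Nat.card (Rt Q) = Q.natDegree := by
  have h1 : ∀ x : QB, aeval x Q = 0 ↔ x ∈ Q.rootSet QB := fun x => by
    rw [mem_rootSet]
    exact ⟨fun h => ⟨hQ.ne_zero, h⟩, fun h => h.2⟩
  rw [Nat.card_congr (Equiv.subtypeEquivRight h1)]
  have h2 := Polynomial.card_rootSet_eq_natDegree (K := QB) hQ (IsAlgClosed.splits _)
  rw [← h2, Nat.card_eq_fintype_card]

/-- The polynomial `Q` has `b` pairs of roots which are permuted doubly homogeneously. -/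
structure IsHom (Q : ℚ[X]) (b : ℕ) : Prop where
  sep : Q.Separable
  deg : Q.natDegree = 2 * b
  hom : HomogeneousRoots 1 Q
  pow : ∀ (k : ℕ) (x y : QB), 0 < k → aeval x Q = 0 → aeval y Q = 0 → x ^ k = y ^ k → x = y
  num : b ≠ 3 ∧ b ≠ 4 ∧ b ≠ 10 ∧ b ≠ 16 ∧ b ≠ 28

/-- The inverse of a root is a root. -/
theorem root_inv (h : RepT s T S P ℓ β) {v : HeightOneSpectrum (𝓞 K)} (hv : v ∉ S)
    (hvℓ : (ℓ : 𝓞 K) ∉ v.asIdeal) (hP0 : P v ≠ 0) {x : QB} (hx : aeval x (P v) = 0) :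
    x ≠ 0 ∧ aeval x⁻¹ (P v) = 0 := by
  obtain ⟨σ, hσ⟩ := Pool.Agent.W401.Frob.exists_frob v
  have hchar : (qrep β (s σ⁻¹)).charpoly = (P v).map (algebraMap ℚ ℚ_[ℓ]) :=
    h.frob v hv hvℓ σ hσ
  have hg : Isom (T.Q.map (algebraMap ℚ ℚ_[ℓ])) (qrep β (s σ⁻¹)) := h.form (s σ⁻¹)
  have hB := qdet (ℓ := ℓ) T
  set g := qrep β (s σ⁻¹) with hgdef
  obtain ⟨ι⟩ := emb ℓ
  have hy := push_root ℓ ι hx
  rw [← hchar] at hy
  have hdet : g.det ≠ 0 := by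
    intro h0
    have h1 : gᵀ * T.Q.map (algebraMap ℚ ℚ_[ℓ]) * g = T.Q.map (algebraMap ℚ ℚ_[ℓ]) := hg
    have h2 := congrArg Matrix.det h1
    rw [det_mul, h0, mul_zero] at h2
    exact hB h2.symm
  have hx0 : ι x ≠ 0 := by
    intro h0
    rw [h0, ← coeff_zero_eq_aeval_zero'] at hy
    have h2 : g.charpoly.coeff 0 = 0 := (_root_.map_eq_zero _).1 hy
    have h3 := Matrix.det_eq_sign_charpoly_coeff g
    rw [h2, mul_zero] at h3
    exact hdet h3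
  have h4 : aeval (ι x)⁻¹ g.charpoly = 0 := Pool.Agent.Y949.ZI.inv_root
    (algebraMap ℚ_[ℓ] (AlgebraicClosure ℚ_[ℓ])) hB hg (ι x) hx0 hy
  rw [hchar] at h4
  obtain ⟨r, hr, hr'⟩ := lift_root ℓ ι hP0 h4
  rw [← map_inv₀] at hr'
  have h5 := ι.injective hr'
  refine ⟨fun h0 => hx0 (by rw [h0, map_zero]), ?_⟩
  rw [← h5]
  exact hr

/-- The polynomial of a place is monic. -/
theorem monic_place (h : RepT s T S P ℓ β) {v : HeightOneSpectrum (𝓞 K)} (hv : v ∉ S)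
    (hvℓ : (ℓ : 𝓞 K) ∉ v.asIdeal) : (P v).Monic := by
  obtain ⟨σ, hσ⟩ := Pool.Agent.W401.Frob.exists_frob v
  have hchar : (qrep β (s σ⁻¹)).charpoly = (P v).map (algebraMap ℚ ℚ_[ℓ]) :=
    h.frob v hv hvℓ σ hσ
  have h1 := Matrix.charpoly_monic (qrep β (s σ⁻¹))
  rw [hchar] at h1
  exact Polynomial.monic_of_injective (algebraMap ℚ ℚ_[ℓ]).injective h1

/-- A place whose polynomial has doubly homogeneous pairs of roots is generic. -/
theorem genO (h : RepT s T S P ℓ β) {v : HeightOneSpectrum (𝓞 K)} (hv : v ∉ S)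
    (hvℓ : (ℓ : 𝓞 K) ∉ v.asIdeal) {b : ℕ} (hQ : IsHom (P v) b) : GenO S P v := by
  have hmon := monic_place h hv hvℓ
  have hcard : Nat.card (Rt (P v)) = 2 * b := (card_rt hQ.sep).trans hQ.deg
  have hinv : ∀ x : QB, aeval x (P v) = 0 → x ≠ 0 ∧ aeval x⁻¹ (P v) = 0 := fun x hx =>
    root_inv h hv hvℓ hmon.ne_zero hx
  have hself := self_one hQ.hom hcard
  refine ⟨⟨hv, hmon, hQ.sep, hQ.pow⟩, fun x hx h1 => hself x hx (by rw [h1, Rat.cast_one]), ?_⟩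
  intro x y z w hx hy hz hw hxy hxw
  have h1 := generic one_ne_zero (hinv_one hinv) hQ.hom hQ.pow hself hcard hQ.num hmon.ne_zero
    hx hy hz hw hxy hxw
  rwa [Rat.cast_one] at h1

/-- **Even rank.** -/
theorem full_even (h : RepT s T S P ℓ β) {v : HeightOneSpectrum (𝓞 K)} (hv : v ∉ S)
    (hvℓ : (ℓ : 𝓞 K) ∉ v.asIdeal) {b : ℕ} (hQ : IsHom (P v) b) (hn : 0 < n)
    (hirr : StronglyIrreducible ℓ (qrep β)) (hsc : SC (qrep β)) :
    FullLie ℓ (qrep β) (T.Q.map (algebraMap ℚ ℚ_[ℓ])) :=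
  full_of_genO (genO h hv hvℓ hQ) ℓ s (qrep β) _ (qsymm T) (qdet T) h.form
    (fun σ hσ => h.frob v hv hvℓ σ hσ)
    (fun 𝒜 h𝒜 => alg_top (qrep β) (continuous_qm.comp h.cont) hn hirr hsc 𝒜 h𝒜)

theorem lift_c (ψ : QB →+* ℂ) {Q : ℚ[X]} (hQ : Q ≠ 0) {x : ℂ} (hx : aeval x Q = 0) :
    ∃ r : QB, aeval r Q = 0 ∧ ψ r = x := by
  have h1 : eval₂ (Rat.castHom ℂ) x Q = 0 := by
    rw [← hx, aeval_def]
    congr 1
  obtain ⟨r, hr, hrx⟩ := root_lift ψ hQ h1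
  refine ⟨r, ?_, hrx⟩
  rw [aeval_def, ← hr]
  congr 1

/-- The inverse of a root of the nontrivial factor is a root of it. -/
theorem root_inv_odd (h : RepT s T S P ℓ β) {v : HeightOneSpectrum (𝓞 K)} (hv : v ∉ S)
    (hvℓ : (ℓ : 𝓞 K) ∉ v.asIdeal) {b : ℕ} {Q : ℚ[X]} (hPv : P v = (X - 1) * Q) (hQ : IsHom Q b)
    {x : QB} (hx : aeval x Q = 0) : x ≠ 0 ∧ aeval x⁻¹ Q = 0 := by
  have hcard : Nat.card (Rt Q) = 2 * b := (card_rt hQ.sep).trans hQ.deg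
  have hself := self_one hQ.hom hcard
  obtain ⟨h1, h2⟩ := root_inv h hv hvℓ (monic_place h hv hvℓ).ne_zero (x := x) (by
    rw [hPv, map_mul, hx, mul_zero])
  refine ⟨h1, ?_⟩
  rw [hPv, map_mul, map_sub, aeval_X, map_one] at h2
  rcases mul_eq_zero.1 h2 with h3 | h3
  · exfalso
    have h4 : x = 1 := by
      exact inv_eq_one.1 (sub_eq_zero.1 h3)
    exact hself x hx (by rw [h4, one_mul, Rat.cast_one])
  · exact h3

/-- The place is good. -/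
theorem goodPlace (h : RepT s T S P ℓ β) {v : HeightOneSpectrum (𝓞 K)} (hv : v ∉ S)
    (hvℓ : (ℓ : 𝓞 K) ∉ v.asIdeal) {b : ℕ} {Q : ℚ[X]} (hPv : P v = (X - 1) * Q) (hQ : IsHom Q b) :
    GoodPlace S P v Q ∧ ∀ x y z : ℂ, aeval x Q = 0 → aeval y Q = 0 → aeval z Q = 0 → x * y ≠ z := by
  have hcard : Nat.card (Rt Q) = 2 * b := (card_rt hQ.sep).trans hQ.deg
  have hself := self_one hQ.hom hcard
  have hinv : ∀ x : QB, aeval x Q = 0 → x ≠ 0 ∧ aeval x⁻¹ Q = 0 := fun x hx =>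
    root_inv_odd h hv hvℓ hPv hQ hx
  obtain ⟨ψ⟩ := nonempty_LC
  refine ⟨⟨hv, hPv, fun k hk => coprime_of_roots (fun k hk x hx h1 => ?_) k hk⟩, ?_⟩
  · obtain ⟨r, hr, rfl⟩ := lift_c ψ hQ.sep.ne_zero hx
    rw [← map_pow, ← map_one ψ] at h1
    have h2 := ψ.injective h1
    obtain ⟨h3, h4⟩ := hinv r hr
    have h5 := hQ.pow k r r⁻¹ hk hr h4 (by rw [inv_pow, h2, inv_one])
    apply hself r hr
    rw [Rat.cast_one]
    conv_lhs => rw [h5]
    nth_rewrite 1 [← h5]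
    exact mul_inv_cancel₀ h3
  · intro x y z hx hy hz hxy
    obtain ⟨x', hx', rfl⟩ := lift_c ψ hQ.sep.ne_zero hx
    obtain ⟨y', hy', rfl⟩ := lift_c ψ hQ.sep.ne_zero hy
    obtain ⟨z', hz', rfl⟩ := lift_c ψ hQ.sep.ne_zero hz
    rw [← map_mul] at hxy
    exact no_three hinv hQ.hom hQ.pow hcard hQ.num hQ.sep.ne_zero hx' hy' hz' (ψ.injective hxy)

/-- **Odd rank.** -/
theorem full_odd (h : RepT s T S P ℓ β) {v : HeightOneSpectrum (𝓞 K)} (hv : v ∉ S)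
    (hvℓ : (ℓ : 𝓞 K) ∉ v.asIdeal) {b : ℕ} {Q : ℚ[X]} (hPv : P v = (X - 1) * Q) (hQ : IsHom Q b)
    (hirr : StronglyIrreducible ℓ (qrep β)) :
    FullLie ℓ (qrep β) (T.Q.map (algebraMap ℚ ℚ_[ℓ])) := by
  obtain ⟨h1, h2⟩ := goodPlace h hv hvℓ hPv hQ
  exact full_of_good h1 h2 ℓ s (qrep β) _ (continuous_qm.comp h.cont) (qsymm T) (qdet T) h.form
    (fun σ hσ => h.frob v hv hvℓ σ hσ) hirr

theorem mtc_of_fullLie {κ : Type} [Fintype κ] [DecidableEq κ] {α : Γ →* Matrix κ κ ℚ_[ℓ]}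
    {p q : Fin 1 → ℕ} (hB : T.Big (one1 n) p q) (hα : Continuous α) (hαf : (Set.range α).Finite)
    (h : RepT s T S P ℓ β) (hfull : FullLie ℓ (qrep β) (T.Q.map (algebraMap ℚ ℚ_[ℓ]))) :
    MTC (hM (fun _ => (1 : Matrix κ κ ℂ)) T) (tot α β) :=
  Pool.Agent.R932.mtc_of_full hB hα hαf h.cont h.form fun X hX =>
    hfull X ((Pool.Agent.R932.skew_iff (qsymm T)).2 hX)

/-- **One prime `ℓ`.** -/
theorem mtc_iff {κ : Type} [Fintype κ] [DecidableEq κ] {α : Γ →* Matrix κ κ ℚ_[ℓ]}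
    {p q : Fin 1 → ℕ} (hB : T.Big (one1 n) p q) (hn : 0 < n) (hα : Continuous α)
    (hαf : (Set.range α).Finite) (h : RepT s T S P ℓ β) {v : HeightOneSpectrum (𝓞 K)}
    (hv : v ∉ S) (hvℓ : (ℓ : 𝓞 K) ∉ v.asIdeal) {b : ℕ} {Q : ℚ[X]}
    (hPv : P v = Q ∨ P v = (X - 1) * Q) (hQ : IsHom Q b) :
    MTC (hM (fun _ => (1 : Matrix κ κ ℂ)) T) (tot α β) ↔ SS (qrep β) ∧ SC (qrep β) := by
  refine ⟨ss_sc_of_mtc hB hn, fun h1 => mtc_of_fullLie hB hα hαf h ?_⟩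
  have hirr := strong_of_ss (qrep β) h1.1 h1.2
  rcases hPv with hPv | hPv
  · subst hPv
    exact full_even h hv hvℓ hQ hn hirr h1.2
  · exact full_odd h hv hvℓ hPv hQ hirr

end place

end

end Pool.Agent.V7H82.PR
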